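import Pool.Agent.helper21.KBR.Pull
import Pool.Agent.helper21.KBR.Inv
import Pool.Agent.helper63.KBR.RdistBoundary

/-!
# The two metrics agree at the boundary
-/

noncomputable section
namespace KBR
open Set MeasureTheory Filter Topology
open scoped ContDiff RealInnerProductSpace
variable {n : ℕ}

namespace BQ

/-- great circle -/
def gc (a v : E n) (s : ℝ) : E n := Real.cos s • a + Real.sin s • v

lemma gc_zero (a v : E n) : gc a v 0 = a := by simp [gc]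

lemma gc_deriv (a v : E n) : HasDerivAt (gc a v) v 0 := by
  have h1 := ((Real.hasDerivAt_cos 0).smul_const a).add ((Real.hasDerivAt_sin 0).smul_const v)
  have h2 : -Real.sin 0 • a + Real.cos 0 • v = v := by simp
  rw [h2] at h1
  exact h1

lemma gc_norm {a v : E n} (ha : ‖a‖ = 1) (hv : ‖v‖ = 1) (hav : ⟪a, v⟫ = 0) (s : ℝ) :
    ‖gc a v s‖ = 1 := by
  have h1 : ‖gc a v s‖ ^ 2 = 1 := by
    rw [gc, ← real_inner_self_eq_norm_sq]
    simp only [inner_add_left, inner_add_right, inner_smul_left, inner_smul_right,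
      RCLike.conj_to_real, real_inner_self_eq_norm_sq, ha, hv, real_inner_comm a v, hav]
    nlinarith [Real.sin_sq_add_cos_sq s]
  have h2 : 0 ≤ ‖gc a v s‖ := norm_nonneg _
  nlinarith

lemma gc_sub_norm {a v : E n} (ha : ‖a‖ = 1) (hv : ‖v‖ = 1) (hav : ⟪a, v⟫ = 0) {s : ℝ}
    (hs : 0 ≤ s) : ‖gc a v s - a‖ ≤ s := by
  have h1 : ‖gc a v s - a‖ ^ 2 = 2 - 2 * Real.cos s := by
    have : gc a v s - a = (Real.cos s - 1) • a + Real.sin s • v := by
      rw [gc, sub_smul, one_smul]; abel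
    rw [this, ← real_inner_self_eq_norm_sq]
    simp only [inner_add_left, inner_add_right, inner_smul_left, inner_smul_right,
      RCLike.conj_to_real, real_inner_self_eq_norm_sq, ha, hv, real_inner_comm a v, hav]
    nlinarith [Real.sin_sq_add_cos_sq s]
  have h2 : 1 - s ^ 2 / 2 ≤ Real.cos s := Real.one_sub_sq_div_two_le_cos
  have h3 : ‖gc a v s - a‖ ^ 2 ≤ s ^ 2 := by rw [h1]; linarith
  exact le_of_sq_le_sq h3 hs |>.trans le_rfl

/-- step 1: equality of the norms of unit tangent vectors -/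
lemma nrm_eq (G₁ G₂ : E n → E n →L[ℝ] E n) (h₁ : IsMetric G₁) (hG₂ : IsMetric G₂)
    (hd : ∀ a ∈ bM n, ∀ b ∈ bM n, rdist G₁ a b ≤ rdist G₂ a b)
    (hd' : ∀ a ∈ bM n, ∀ ε > 0, ∃ δ > 0, ∀ b ∈ bM n, ‖b - a‖ < δ →
      rdist G₂ a b ≤ rdist G₁ a b + ε * ‖b - a‖)
    {a v : E n} (ha : a ∈ bM n) (hv : ‖v‖ = 1) (hav : ⟪a, v⟫ = 0) :
    nrm G₁ a v = nrm G₂ a v := by
  have han : ‖a‖ = 1 := by simpa [bM] using ha
  have hb : ∀ s, gc a v s ∈ bM n := fun s => by simp [bM, gc_norm han hv hav s]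
  have t1 := rdist_boundary G₁ h₁ a ha v hv hav
  have t2 := rdist_boundary G₂ hG₂ a ha v hv hav
  apply le_antisymm
  · refine le_of_tendsto_of_tendsto t1 t2 ?_
    filter_upwards [self_mem_nhdsWithin] with s hs
    have hs' : 0 < s := hs
    exact div_le_div_of_nonneg_right (hd a ha _ (hb s)) hs'.le
  · refine le_of_forall_pos_le_add fun ε hε => ?_
    obtain ⟨δ, hδ, hδb⟩ := hd' a ha ε hε
    have t3 : Tendsto (fun s : ℝ => rdist G₁ a (Real.cos s • a + Real.sin s • v) / s + ε)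
      (𝓝[>] 0) (𝓝 (nrm G₁ a v + ε)) := t1.add_const ε
    refine le_of_tendsto_of_tendsto t2 t3 ?_
    have h4 : ∀ᶠ s in 𝓝[>] (0:ℝ), s < δ :=
      (eventually_lt_nhds hδ).filter_mono nhdsWithin_le_nhds
    filter_upwards [self_mem_nhdsWithin, h4] with s hs hsδ
    have hs' : 0 < s := hs
    have h5 := gc_sub_norm han hv hav hs'.le
    have h6 := hδb _ (hb s) (h5.trans_lt hsδ)
    have h7 : rdist G₂ a (gc a v s) ≤ rdist G₁ a (gc a v s) + ε * s := by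
      refine h6.trans ?_
      gcongr
    show rdist G₂ a (gc a v s) / s ≤ rdist G₁ a (gc a v s) / s + ε
    rw [div_add' _ _ _ hs'.ne']
    exact div_le_div_of_nonneg_right h7 hs'.le

/-- step 2: `ψ` fixes the boundary, hence its derivative fixes tangent vectors -/
lemma fderiv_tangent (ψ : E n → E n) (hψ : ContDiff ℝ ∞ ψ) (hψb : ∀ x ∈ bM n, ψ x = x)
    {a v : E n} (ha : a ∈ bM n) (hv : ‖v‖ = 1) (hav : ⟪a, v⟫ = 0) :
    fderiv ℝ ψ a v = v := by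
  have han : ‖a‖ = 1 := by simpa [bM] using ha
  have hb : ∀ s, gc a v s ∈ bM n := fun s => by simp [bM, gc_norm han hv hav s]
  have h1 : HasFDerivAt ψ (fderiv ℝ ψ a) (gc a v 0) := by
    rw [gc_zero]
    exact (hψ.differentiable (by simp) a).hasFDerivAt
  have h2 : HasDerivAt (ψ ∘ gc a v) (fderiv ℝ ψ a v) 0 := h1.comp_hasDerivAt 0 (gc_deriv a v)
  have h3 : ψ ∘ gc a v = gc a v := by
    funext s
    exact hψb _ (hb s)
  rw [h3] at h2
  exact h2.unique (gc_deriv a v)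

lemma fderiv_tangent' (ψ : E n → E n) (hψ : ContDiff ℝ ∞ ψ) (hψb : ∀ x ∈ bM n, ψ x = x)
    {a v : E n} (ha : a ∈ bM n) (hav : ⟪a, v⟫ = 0) :
    fderiv ℝ ψ a v = v := by
  by_cases hv : v = 0
  · simp [hv]
  have hvn : ‖v‖ ≠ 0 := norm_ne_zero_iff.mpr hv
  have h1 : ‖(‖v‖)⁻¹ • v‖ = 1 := by
    rw [norm_smul, norm_inv, norm_norm, inv_mul_cancel₀ hvn]
  have h2 : ⟪a, (‖v‖)⁻¹ • v⟫ = 0 := by rw [inner_smul_right, hav, mul_zero]
  have h3 := fderiv_tangent ψ hψ hψb ha h1 h2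
  rw [map_smul] at h3
  exact smul_right_injective _ (inv_ne_zero hvn) h3

lemma sq_eq (G₁ G₂ : E n → E n →L[ℝ] E n) (h₁ : IsMetric G₁) (hG₂ : IsMetric G₂)
    (hd : ∀ a ∈ bM n, ∀ b ∈ bM n, rdist G₁ a b ≤ rdist G₂ a b)
    (hd' : ∀ a ∈ bM n, ∀ ε > 0, ∃ δ > 0, ∀ b ∈ bM n, ‖b - a‖ < δ →
      rdist G₂ a b ≤ rdist G₁ a b + ε * ‖b - a‖)
    {a v : E n} (ha : a ∈ bM n) (hav : ⟪a, v⟫ = 0) :
    ⟪G₂ a v, v⟫ = ⟪G₁ a v, v⟫ := by
  have haM : a ∈ M n := by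
    have : ‖a‖ = 1 := by simpa [bM] using ha
    simp [M, this]
  by_cases hv : v = 0
  · simp [hv]
  have hvn : ‖v‖ ≠ 0 := norm_ne_zero_iff.mpr hv
  have h1 : ‖(‖v‖)⁻¹ • v‖ = 1 := by
    rw [norm_smul, norm_inv, norm_norm, inv_mul_cancel₀ hvn]
  have h2 : ⟪a, (‖v‖)⁻¹ • v⟫ = 0 := by rw [inner_smul_right, hav, mul_zero]
  have h3 := nrm_eq G₁ G₂ h₁ hG₂ hd hd' ha h1 h2
  rw [KBR.nrm_smul, KBR.nrm_smul] at h3
  have h4 : |(‖v‖)⁻¹| ≠ 0 := abs_ne_zero.mpr (inv_ne_zero hvn)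
  have h5 := mul_left_cancel₀ h4 h3
  rw [← hG₂.nrm_sq haM, ← h₁.nrm_sq haM, h5]

/-- step 3: linear algebra -/
lemma linalg {a : E n} (ha : ‖a‖ = 1) (B : E n → E n → ℝ) (J : E n →L[ℝ] E n)
    (hJ : ∀ v, J (J v) = -v)
    (hadd : ∀ u u' v, B (u + u') v = B u v + B u' v)
    (hsmul : ∀ (r : ℝ) u v, B (r • u) v = r * B u v)
    (hsymm : ∀ u v, B u v = B v u) (hBJ : ∀ u v, B (J u) (J v) = B u v)
    (htan : ∀ v, ⟪a, v⟫ = 0 → B v v = 0) : ∀ u v, B u v = 0 := by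
  have haa : ⟪a, a⟫ = 1 := by rw [real_inner_self_eq_norm_sq, ha]; norm_num
  have hadd' : ∀ u v v', B u (v + v') = B u v + B u v' := by
    intro u v v'
    rw [hsymm, hadd, hsymm v u, hsymm v' u]
  have hsmul' : ∀ (r : ℝ) u v, B u (r • v) = r * B u v := by
    intro r u v
    rw [hsymm, hsmul, hsymm]
  have hpol : ∀ u v, B (u + v) (u + v) = B u u + 2 * B u v + B v v := by
    intro u v
    rw [hadd, hadd', hadd', hsymm v u]; ring
  have htan2 : ∀ u v, ⟪a, u⟫ = 0 → ⟪a, v⟫ = 0 → B u v = 0 := by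
    intro u v hu hv
    have h1 := hpol u v
    rw [htan u hu, htan v hv, htan (u + v) (by rw [inner_add_right, hu, hv, add_zero])] at h1
    linarith
  -- a tangent vector with `J T` not tangent
  have hT : ∃ T, ⟪a, T⟫ = 0 ∧ ⟪a, J T⟫ ≠ 0 := by
    by_contra hno
    push Not at hno
    set α : ℝ := ⟪a, J a⟫ with hα
    set t : E n := J a - α • a with ht
    have h1 : ⟪a, t⟫ = 0 := by rw [ht, inner_sub_right, inner_smul_right, haa]; ring
    have h2 := hno t h1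
    have h3 : J a = α • a + t := by rw [ht]; abel
    have h4 : J (J a) = α • J a + J t := by
      conv_lhs => rw [h3]
      rw [map_add, map_smul]
    have h5 : ⟪a, J (J a)⟫ = α * α := by
      rw [h4, inner_add_right, inner_smul_right, h2, ← hα, add_zero]
    rw [hJ, inner_neg_right, haa] at h5
    nlinarith [mul_self_nonneg α]
  obtain ⟨T, hT0, hTc⟩ := hT
  set c : ℝ := ⟪a, J T⟫ with hc
  have hTJT : B T (J T) = 0 := by
    have h1 := hBJ T (J T)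
    rw [hJ] at h1
    have h2 : B (J T) (-T) = -B T (J T) := by
      rw [← neg_one_smul ℝ T, hsmul', hsymm]; ring
    rw [h2] at h1
    linarith
  have hJTJT : B (J T) (J T) = 0 := by rw [hBJ, htan T hT0]
  have htJT : ∀ t, ⟪a, t⟫ = 0 → B t (J T) = 0 := by
    intro t ht
    set r : ℝ := ⟪a, J t⟫ / c with hr
    set t' : E n := t - r • T with ht'
    have h1 : ⟪a, J t'⟫ = 0 := by
      rw [ht', map_sub, map_smul, inner_sub_right, inner_smul_right, ← hc, hr,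
        div_mul_cancel₀ _ hTc, sub_self]
    have h2 : B t' (J T) = 0 := by
      rw [← hBJ, hJ]
      have h3 : B (J t') (-T) = -B (J t') T := by
        rw [← neg_one_smul ℝ T, hsmul']; ring
      rw [h3, htan2 _ _ h1 hT0, neg_zero]
    have h3 : t = t' + r • T := by rw [ht']; abel
    rw [h3, hadd, hsmul, h2, hTJT]; ring
  have hzz : ∀ z, B z z = 0 := by
    intro z
    set s : ℝ := ⟪a, z⟫ / c with hs
    set t : E n := z - s • J T with ht
    have h1 : ⟪a, t⟫ = 0 := by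
      rw [ht, inner_sub_right, inner_smul_right, ← hc, hs, div_mul_cancel₀ _ hTc, sub_self]
    have h2 : z = t + s • J T := by rw [ht]; abel
    rw [h2, hpol, htan t h1, hsmul', hsmul, hsmul', htJT t h1, hJTJT]
    ring
  intro u v
  have h1 := hpol u v
  rw [hzz, hzz, hzz] at h1
  linarith

end BQ

open BQ in
/-- MODULE Q: the two metrics agree at the boundary. -/
theorem boundary_eq (G₁ G₂ J₁ : E n → E n →L[ℝ] E n)
    (h₁ : IsAlmostKahler G₁ J₁) (hG₂ : IsMetric G₂)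
    (ψ : E n → E n) (hψ : ContDiff ℝ ∞ ψ) (hψb : ∀ x ∈ bM n, ψ x = x)
    (hBJ : ∀ x ∈ M n, ∀ u v, ⟪pb ψ G₂ x (J₁ x u), J₁ x v⟫ = ⟪pb ψ G₂ x u, v⟫)
    (hd : ∀ a ∈ bM n, ∀ b ∈ bM n, rdist G₁ a b ≤ rdist G₂ a b)
    (hd' : ∀ a ∈ bM n, ∀ ε > 0, ∃ δ > 0, ∀ b ∈ bM n, ‖b - a‖ < δ →
      rdist G₂ a b ≤ rdist G₁ a b + ε * ‖b - a‖) :
    ∀ x ∈ bM n, pb ψ G₂ x = G₁ x := by
  intro a ha
  have han : ‖a‖ = 1 := by simpa [bM] using ha
  have haM : a ∈ M n := by simp [M, han]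
  have hψa : ψ a = a := hψb a ha
  have key := linalg han (fun u v => ⟪pb ψ G₂ a u, v⟫ - ⟪G₁ a u, v⟫) (J₁ a) (h₁.sq a haM)
    (fun u u' v => by simp only [map_add, inner_add_left]; ring)
    (fun r u v => by
      simp only [map_smul, inner_smul_left, RCLike.conj_to_real]; ring)
    (fun u v => by
      have e1 : ⟪pb ψ G₂ a u, v⟫ = ⟪pb ψ G₂ a v, u⟫ := by
        rw [pb_inner, pb_inner]
        exact hG₂.symm _ (by rw [hψa]; exact haM) _ _
      have e2 := h₁.metric.symm a haM u v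
      show ⟪pb ψ G₂ a u, v⟫ - ⟪G₁ a u, v⟫ = ⟪pb ψ G₂ a v, u⟫ - ⟪G₁ a v, u⟫
      rw [e1, e2])
    (fun u v => by
      show ⟪pb ψ G₂ a (J₁ a u), J₁ a v⟫ - ⟪G₁ a (J₁ a u), J₁ a v⟫ =
        ⟪pb ψ G₂ a u, v⟫ - ⟪G₁ a u, v⟫
      rw [hBJ a haM, h₁.inv a haM])
    (fun v hv => by
      show ⟪pb ψ G₂ a v, v⟫ - ⟪G₁ a v, v⟫ = 0
      rw [pb_inner, fderiv_tangent' ψ hψ hψb ha hv, hψa,
        sq_eq G₁ G₂ h₁.metric hG₂ hd hd' ha hv, sub_self])
  ext1 u
  refine ext_inner_right ℝ fun v => ?_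
  exact sub_eq_zero.mp (key u v)

end KBR
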