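import Pool.Agent.helper21.KBR.Defs2
import Pool.Agent.helper21.KBR.Inv

/-!
# Continuity and coercivity of the dual square norm
-/

noncomputable section
namespace KBR
open Set MeasureTheory Filter Topology
open scoped ContDiff RealInnerProductSpace
variable {n : ℕ} {G : E n → E n →L[ℝ] E n}

theorem dsq_contOn (hG : IsMetric G) : ContinuousOn (dsq G) {z : E n × E n | z.1 ∈ M n} := by
  intro z hz
  have h1 : ContinuousAt (fun y => (G y).inverse) z.1 := (hG.contDiffAt_inv hz).continuousAt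
  have h2 : ContinuousAt (fun y : E n × E n => (G y.1).inverse) z :=
    ContinuousAt.comp (f := Prod.fst) h1 continuousAt_fst
  have h3 : ContinuousAt (fun y : E n × E n => (G y.1).inverse y.2) z :=
    h2.clm_apply continuousAt_snd
  exact (h3.inner continuousAt_snd).continuousWithinAt

/-- the sharp coercivity: `‖p‖² ≤ ‖G x‖ · dsq G (x, p)` -/
lemma dsq_lower (hG : IsMetric G) {x : E n} (hx : x ∈ M n) (p : E n) :
    ‖p‖ ^ 2 ≤ ‖G x‖ * dsq G (x, p) := by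
  set v := (G x).inverse p with hv
  have hGv : G x v = p := hG.apply_inv hx p
  have h0 : 0 ≤ dsq G (x, p) := hG.inv_nonneg hx p
  have h2 : dsq G (x, p) = ⟪G x v, v⟫ := by
    rw [hGv, real_inner_comm]; rfl
  have h3 : |⟪G x v, p⟫| ≤ nrm G x v * nrm G x p := hG.cs hx v p
  have h4 : ⟪G x v, p⟫ = ‖p‖ ^ 2 := by rw [hGv, real_inner_self_eq_norm_sq]
  have h5 : nrm G x v ^ 2 = dsq G (x, p) := by rw [hG.nrm_sq hx, h2]
  have h6 : nrm G x p ^ 2 ≤ ‖G x‖ * ‖p‖ ^ 2 := by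
    rw [hG.nrm_sq hx]
    calc ⟪G x p, p⟫ ≤ ‖G x p‖ * ‖p‖ := real_inner_le_norm _ _
      _ ≤ (‖G x‖ * ‖p‖) * ‖p‖ := by gcongr; exact (G x).le_opNorm p
      _ = ‖G x‖ * ‖p‖ ^ 2 := by ring
  have h7 : ‖p‖ ^ 2 ≤ nrm G x v * nrm G x p := by
    rw [← h4]
    exact (le_abs_self _).trans h3
  by_cases hp0 : ‖p‖ = 0
  · rw [hp0]
    have : 0 ≤ ‖G x‖ * dsq G (x, p) := by positivity
    simpa using this
  · have hp1 : 0 < ‖p‖ ^ 2 := by positivity
    have h8 : (‖p‖ ^ 2) ^ 2 ≤ (nrm G x v * nrm G x p) ^ 2 := by gcongr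
    have h9 : (‖p‖ ^ 2) * (‖p‖ ^ 2) ≤ (‖G x‖ * dsq G (x, p)) * ‖p‖ ^ 2 := by
      calc (‖p‖ ^ 2) * (‖p‖ ^ 2) = (‖p‖ ^ 2) ^ 2 := by ring
        _ ≤ (nrm G x v * nrm G x p) ^ 2 := h8
        _ = dsq G (x, p) * nrm G x p ^ 2 := by rw [mul_pow, h5]
        _ ≤ dsq G (x, p) * (‖G x‖ * ‖p‖ ^ 2) := by gcongr
        _ = _ := by ring
    exact le_of_mul_le_mul_right h9 hp1

theorem dsq_coercive (hG : IsMetric G) :
    ∃ m > 0, ∀ z : E n × E n, z.1 ∈ M n → m * ‖z.2‖ ^ 2 ≤ dsq G z := by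
  have hMc : IsCompact (M n) := isCompact_closedBall _ _
  obtain ⟨C₀, hC₀⟩ := hMc.exists_bound_of_continuousOn (f := G) hG.smooth.continuous.continuousOn
  set C : ℝ := max C₀ 1 with hC
  have hC1 : 0 < C := lt_of_lt_of_le one_pos (le_max_right _ _)
  refine ⟨C⁻¹, inv_pos.mpr hC1, fun z hz => ?_⟩
  have h1 := dsq_lower hG hz z.2
  have h2 : ‖G z.1‖ ≤ C := (hC₀ _ hz).trans (le_max_left _ _)
  have h0 : 0 ≤ dsq G z := hG.inv_nonneg hz z.2
  rw [inv_mul_le_iff₀ hC1]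
  calc ‖z.2‖ ^ 2 ≤ ‖G z.1‖ * dsq G z := h1
    _ ≤ C * dsq G z := by gcongr

end KBR
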