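import Pool.Agent.helper42.TonODE

/-!
# The flow of a divergence free compactly supported vector field preserves volume
-/

noncomputable section

set_option linter.unusedSectionVars false

namespace KBRA

open Set MeasureTheory Filter Topology Metric
open scoped NNReal ContDiff ENNReal

section flow

variable {V : Type*} [NormedAddCommGroup V] [NormedSpace ℝ V] [CompleteSpace V]

lemma curve_unique {X : V → V} {K : ℝ≥0} (hL : LipschitzWith K X) {f g : ℝ → V}
    (hf : ∀ t, HasDerivAt f (X (f t)) t) (hg : ∀ t, HasDerivAt g (X (g t)) t)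
    {t₀ : ℝ} (h : f t₀ = g t₀) : f = g :=
  ODE_solution_unique_univ (v := fun _ => X) (s := fun _ => univ) (K := K)
    (fun _ => hL.lipschitzOnWith) (fun t => ⟨hf t, trivial⟩) (fun t => ⟨hg t, trivial⟩) h

lemma curve_dist {X : V → V} {K : ℝ≥0} (hL : LipschitzWith K X) {f g : ℝ → V}
    (hf : ∀ t, HasDerivAt f (X (f t)) t) (hg : ∀ t, HasDerivAt g (X (g t)) t)
    {t : ℝ} (ht : 0 ≤ t) : dist (f t) (g t) ≤ dist (f 0) (g 0) * Real.exp (K * t) := by
  have h := dist_le_of_trajectories_ODE (v := fun _ => X) (K := K) (f := f) (g := g)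
    (a := 0) (b := t) (δ := dist (f 0) (g 0)) (fun _ => hL)
    (fun s _ => (hf s).continuousAt.continuousWithinAt) (fun s _ => (hf s).hasDerivWithinAt)
    (fun s _ => (hg s).continuousAt.continuousWithinAt) (fun s _ => (hg s).hasDerivWithinAt)
    le_rfl t ⟨ht, le_rfl⟩
  simpa using h

lemma curve_dist' {X : V → V} {K : ℝ≥0} (hL : LipschitzWith K X) {f g : ℝ → V}
    (hf : ∀ t, HasDerivAt f (X (f t)) t) (hg : ∀ t, HasDerivAt g (X (g t)) t)
    (t : ℝ) : dist (f t) (g t) ≤ dist (f 0) (g 0) * Real.exp (K * |t|) := by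
  rcases le_total 0 t with ht | ht
  · rw [abs_of_nonneg ht]
    exact curve_dist hL hf hg ht
  · rw [abs_of_nonpos ht]
    have hL' : LipschitzWith K (fun z => -X z) := hL.neg
    have hneg : ∀ {f : ℝ → V}, (∀ t, HasDerivAt f (X (f t)) t) →
        ∀ t, HasDerivAt (fun s => f (-s)) (-X (f (-t))) t := by
      intro f hf t
      have := (hf (-t)).scomp t ((hasDerivAt_neg t))
      simpa [Function.comp_def] using this
    have := curve_dist hL' (hneg hf) (hneg hg) (t := -t) (by linarith)
    simpa using this

/-- complete flow of a bounded Lipschitz `C¹` vector field -/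
theorem exists_flow (X : V → V) (hX : ContDiff ℝ 1 X) (K C : ℝ≥0) (hL : LipschitzWith K X)
    (hC : ∀ z, ‖X z‖₊ ≤ C) :
    ∃ φ : ℝ → V → V, (∀ z, φ 0 z = z) ∧ (∀ s t z, φ (s + t) z = φ s (φ t z)) ∧
      (∀ t z, HasDerivAt (fun r => φ r z) (X (φ t z)) t) ∧
      (∀ t, LipschitzWith (Real.toNNReal (Real.exp (K * |t|))) (φ t)) ∧
      (∀ z, LipschitzWith C (fun t => φ t z)) := by
  have hex : ∀ z, ∃ γ : ℝ → V, γ 0 = z ∧ ∀ t, HasDerivAt γ (X (γ t)) t := fun z =>
    Ton.global_exists (fun _ => X) K (fun _ => hL) (hX.comp contDiff_fst) 0 z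
  choose γ h0 hγ using hex
  refine ⟨fun t z => γ z t, h0, fun s t z => ?_, fun t z => hγ z t, fun t => ?_, fun z => ?_⟩
  · have h1 : ∀ r, HasDerivAt (fun r => γ z (r + t)) (X (γ z (r + t))) r := fun r =>
      (hγ z (r + t)).comp_add_const r t
    have h2 := curve_unique hL h1 (hγ (γ z t)) (t₀ := 0) (by simp [h0])
    exact congrFun h2 s
  · refine LipschitzWith.of_dist_le_mul fun z w => ?_
    have h1 := curve_dist' hL (hγ z) (hγ w) t
    rw [h0, h0] at h1
    rw [Real.coe_toNNReal _ (Real.exp_pos _).le, mul_comm]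
    exact h1
  · exact lipschitzWith_of_nnnorm_deriv_le (fun t => (hγ z t).differentiableAt) (fun t => by
      rw [(hγ z t).deriv]; exact hC _)

lemma flow_continuous {φ : ℝ → V → V} {C : ℝ≥0} (h1 : ∀ t, Continuous (φ t))
    (h2 : ∀ z, LipschitzWith C (fun t => φ t z)) :
    Continuous (fun q : ℝ × V => φ q.1 q.2) := by
  have h3 : Continuous (fun q : V × ℝ => φ q.2 q.1) := by
    have := continuous_prod_of_continuous_lipschitzWith' (fun q : V × ℝ => φ q.2 q.1) C
      (fun z => h2 z) (fun t => h1 t)
    exact this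
  exact h3.comp (continuous_snd.prodMk continuous_fst)

end flow

section preserve

variable {V : Type*} [NormedAddCommGroup V] [NormedSpace ℝ V] [FiniteDimensional ℝ V]
  [MeasurableSpace V] [BorelSpace V] (μ : Measure V) [μ.IsAddHaarMeasure]
  {ι : Type*} [Fintype ι] (b : Module.Basis ι ℝ V)

/-- `∫ Df[X] = 0` for a divergence free compactly supported `X`. -/
lemma integral_deriv_along (X : V → V) (hX : ContDiff ℝ 1 X) (hXc : HasCompactSupport X)
    (hdiv : ∀ z, ∑ i, b.coord i (fderiv ℝ X z (b i)) = 0)
    (f : V → ℝ) {D : ℝ≥0} (hf : LipschitzWith D f) :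
    ∫ z, ∑ i, lineDeriv ℝ f z (b i) * b.coord i (X z) ∂μ = 0 := by
  set Y : ι → V → ℝ := fun i z => b.coord i (X z) with hY
  have hYc : ∀ i, HasCompactSupport (Y i) := fun i => hXc.comp_left (g := b.coord i) (by simp)
  have hYs : ∀ i, ContDiff ℝ 1 (Y i) := fun i =>
    (LinearMap.toContinuousLinearMap (b.coord i)).contDiff.comp hX
  have hYL : ∀ i, ∃ D, LipschitzWith D (Y i) := fun i =>
    ContDiff.lipschitzWith_of_hasCompactSupport (hYc i) (hYs i) (by simp)
  have hlin : ∀ i z, lineDeriv ℝ (Y i) z (b i) = b.coord i (fderiv ℝ X z (b i)) := by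
    intro i z
    have hd : DifferentiableAt ℝ X z := (hX.differentiable (by simp)) z
    have h1 : HasFDerivAt (Y i)
        ((LinearMap.toContinuousLinearMap (b.coord i)).comp (fderiv ℝ X z)) z :=
      (LinearMap.toContinuousLinearMap (b.coord i)).hasFDerivAt.comp z hd.hasFDerivAt
    rw [h1.differentiableAt.lineDeriv_eq_fderiv, h1.fderiv]
    rfl
  have hint : ∀ i, Integrable (fun z => lineDeriv ℝ f z (b i) * Y i z) μ := by
    intro i
    have h1 : Integrable (Y i) μ := (hYs i).continuous.integrable_of_hasCompactSupport (hYc i)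
    refine h1.bdd_mul (c := D * ‖b i‖) ?_ ?_
    · exact (measurable_lineDeriv hf.continuous).aestronglyMeasurable
    · exact Eventually.of_forall fun z => norm_lineDeriv_le_of_lipschitz ℝ hf
  rw [integral_finsetSum _ (fun i _ => hint i)]
  have h2 : ∀ i, ∫ z, lineDeriv ℝ f z (b i) * Y i z ∂μ =
      ∫ z, -(b.coord i (fderiv ℝ X z (b i)) * f z) ∂μ := by
    intro i
    obtain ⟨D', hD'⟩ := hYL i
    rw [LipschitzWith.integral_lineDeriv_mul_eq hf hD' (hYc i)]
    refine integral_congr_ae (Eventually.of_forall fun z => ?_)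
    show lineDeriv ℝ (Y i) z (-b i) * f z = _
    rw [lineDeriv_neg, hlin]
    ring
  rw [Finset.sum_congr rfl (fun i _ => h2 i)]
  have hfc : Continuous (fun z => fderiv ℝ X z) := hX.continuous_fderiv (by simp)
  have hint2 : ∀ i, Integrable (fun z => -(b.coord i (fderiv ℝ X z (b i)) * f z)) μ := by
    intro i
    have hc1 : Continuous (fun z => b.coord i (fderiv ℝ X z (b i))) :=
      (LinearMap.toContinuousLinearMap (b.coord i)).continuous.comp
        (hfc.clm_apply continuous_const)
    refine ((hc1.mul hf.continuous).integrable_of_hasCompactSupport ?_).neg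
    refine HasCompactSupport.mul_right ?_
    have : HasCompactSupport (fun z => fderiv ℝ X z (b i)) :=
      (hXc.fderiv ℝ).comp_left (g := fun L : V →L[ℝ] V => L (b i)) rfl
    exact this.comp_left (g := b.coord i) (by simp)
  rw [← integral_finsetSum _ (fun i _ => hint2 i)]
  rw [show (fun z => ∑ i, -(b.coord i (fderiv ℝ X z (b i)) * f z)) = fun _ => (0:ℝ) from ?_]
  · simp
  · funext z
    rw [Finset.sum_neg_distrib, ← Finset.sum_mul, hdiv z]
    simp

variable {X : V → V} {φ : ℝ → V → V} {C : ℝ≥0}

lemma hasDerivAt_integral_flow_zero (hX : ContDiff ℝ 1 X) (hXc : HasCompactSupport X)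
    (hdiv : ∀ z, ∑ i, b.coord i (fderiv ℝ X z (b i)) = 0)
    (h0 : ∀ z, φ 0 z = z)
    (hφ : ∀ t z, HasDerivAt (fun r => φ r z) (X (φ t z)) t)
    (hcont : ∀ t, Continuous (φ t))
    (hC : ∀ z, LipschitzWith C (fun t => φ t z))
    (f : V → ℝ) {D : ℝ≥0} (hf : LipschitzWith D f) (hfc : HasCompactSupport f) :
    HasDerivAt (fun h => ∫ z, f (φ h z) ∂μ) 0 0 := by
  have hkey := integral_deriv_along μ b X hX hXc hdiv f hf
  set S : Set V := cthickening (C + 1) (tsupport f) with hS
  have hSc : IsCompact S := hfc.cthickening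
  have hSm : MeasurableSet S := hSc.isClosed.measurableSet
  have hout : ∀ z ∉ S, ∀ h : ℝ, |h| ≤ 1 → f (φ h z) = 0 := by
    intro z hz h hh
    by_contra hne
    apply hz
    have hmem : φ h z ∈ tsupport f := subset_tsupport _ hne
    refine mem_cthickening_of_dist_le z (φ h z) _ _ hmem ?_
    have h1 := (hC z).dist_le_mul h 0
    simp only [h0, dist_zero_right, Real.norm_eq_abs] at h1
    rw [dist_comm]
    calc dist (φ h z) z ≤ C * |h| := h1
      _ ≤ C * 1 := by gcongr
      _ ≤ C + 1 := by linarith
  have hmain := hasDerivAt_integral_of_dominated_loc_of_lip (μ := μ)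
    (F := fun h z => f (φ h z)) (F' := fun z => ∑ i, lineDeriv ℝ f z (b i) * b.coord i (X z))
    (x₀ := (0:ℝ)) (s := Metric.ball 0 1) (bound := S.indicator (fun _ => ((D * C : ℝ≥0) : ℝ)))
    (Metric.ball_mem_nhds _ one_pos)
    (Eventually.of_forall fun h => (hf.continuous.comp (hcont h)).aestronglyMeasurable)
    (by
      simp only [h0]
      exact hf.continuous.integrable_of_hasCompactSupport hfc)
    (by
      refine Measurable.aestronglyMeasurable ?_
      refine Finset.measurable_sum _ fun i _ => ?_
      exact (measurable_lineDeriv hf.continuous).mul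
        ((LinearMap.toContinuousLinearMap (b.coord i)).continuous.comp hX.continuous).measurable)
    (by
      refine Eventually.of_forall fun z => ?_
      by_cases hz : z ∈ S
      · rw [indicator_of_mem hz]
        have h1 : LipschitzWith (D * C) (fun h => f (φ h z)) := hf.comp (hC z)
        have h2 : Real.nnabs ((D * C : ℝ≥0) : ℝ) = D * C := by
          simp
        rw [h2]
        exact h1.lipschitzOnWith
      · rw [indicator_of_notMem hz]
        refine LipschitzOnWith.of_dist_le_mul fun x hx y hy => ?_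
        rw [hout z hz x (by simpa using (mem_ball_zero_iff.mp hx).le),
          hout z hz y (by simpa using (mem_ball_zero_iff.mp hy).le)]
        simp)
    (by
      rw [integrable_indicator_iff hSm]
      exact integrableOn_const (hs := hSc.measure_lt_top.ne))
    (by
      filter_upwards [hf.ae_differentiableAt (μ := μ)] with z hz
      have h1 : HasFDerivAt f (fderiv ℝ f z) (φ 0 z) := by
        rw [h0]; exact hz.hasFDerivAt
      have h2 := h1.comp_hasDerivAt (0:ℝ) (hφ 0 z)
      have h3 : fderiv ℝ f z (X (φ 0 z)) = ∑ i, lineDeriv ℝ f z (b i) * b.coord i (X z) := by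
        rw [h0]
        conv_lhs => rw [← b.sum_repr (X z)]
        rw [map_sum]
        refine Finset.sum_congr rfl fun i _ => ?_
        rw [hz.lineDeriv_eq_fderiv, map_smul, smul_eq_mul, mul_comm]
        rfl
      rw [h3] at h2
      exact h2)
  have := hmain.2
  rwa [hkey] at this

lemma integral_flow_const (hX : ContDiff ℝ 1 X) (hXc : HasCompactSupport X)
    (hdiv : ∀ z, ∑ i, b.coord i (fderiv ℝ X z (b i)) = 0)
    (h0 : ∀ z, φ 0 z = z) (hadd : ∀ s t z, φ (s + t) z = φ s (φ t z))
    (hφ : ∀ t z, HasDerivAt (fun r => φ r z) (X (φ t z)) t)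
    (hlip : ∀ t, ∃ L, LipschitzWith L (φ t))
    (hC : ∀ z, LipschitzWith C (fun t => φ t z))
    (f : V → ℝ) {D : ℝ≥0} (hf : LipschitzWith D f) (hfc : HasCompactSupport f) (t : ℝ) :
    ∫ z, f (φ t z) ∂μ = ∫ z, f z ∂μ := by
  have hcont : ∀ t, Continuous (φ t) := fun t => by
    obtain ⟨L, hL⟩ := hlip t
    exact hL.continuous
  have hder : ∀ t, HasDerivAt (fun h => ∫ z, f (φ h z) ∂μ) 0 t := by
    intro t
    obtain ⟨L, hL⟩ := hlip t
    have hcs : HasCompactSupport (fun z => f (φ t z)) := by
      have hK : IsCompact (φ (-t) '' tsupport f) := hfc.isCompact.image (hcont _)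
      refine HasCompactSupport.intro hK fun z hz => ?_
      by_contra hne
      apply hz
      refine ⟨φ t z, subset_tsupport _ hne, ?_⟩
      rw [← hadd]
      simp [h0]
    have h1 := hasDerivAt_integral_flow_zero μ b hX hXc hdiv h0 hφ hcont hC
      (fun z => f (φ t z)) (hf.comp hL) hcs
    have h2 : (fun h => ∫ z, f (φ t (φ h z)) ∂μ) = fun h => ∫ z, f (φ (t + h) z) ∂μ := by
      funext h
      simp only [hadd]
    rw [h2] at h1
    have h3 := HasDerivAt.comp_sub_const t t (f := fun h => ∫ z, f (φ (t + h) z) ∂μ) (f' := 0)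
      (by simpa using h1)
    simpa using h3
  have h4 := is_const_of_deriv_eq_zero (f := fun h => ∫ z, f (φ h z) ∂μ)
    (fun t => (hder t).differentiableAt) (fun t => (hder t).deriv) t 0
  simpa [h0] using h4

lemma measure_preimage_le (hX : ContDiff ℝ 1 X) (hXc : HasCompactSupport X)
    (hdiv : ∀ z, ∑ i, b.coord i (fderiv ℝ X z (b i)) = 0)
    (h0 : ∀ z, φ 0 z = z) (hadd : ∀ s t z, φ (s + t) z = φ s (φ t z))
    (hφ : ∀ t z, HasDerivAt (fun r => φ r z) (X (φ t z)) t)
    (hlip : ∀ t, ∃ L, LipschitzWith L (φ t))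
    (hC : ∀ z, LipschitzWith C (fun t => φ t z)) (t : ℝ) {K : Set V} (hK : IsCompact K) :
    μ (φ t ⁻¹' K) ≤ μ K := by
  have hcont : ∀ t, Continuous (φ t) := fun t => by
    obtain ⟨L, hL⟩ := hlip t
    exact hL.continuous
  have hpre : φ t ⁻¹' K = φ (-t) '' K := by
    ext z
    constructor
    · intro hz
      exact ⟨φ t z, hz, by rw [← hadd]; simp [h0]⟩
    · rintro ⟨w, hw, rfl⟩
      show φ t (φ (-t) w) ∈ K
      rw [← hadd]
      simpa [h0] using hw
  have hKc : IsCompact (φ t ⁻¹' K) := by
    rw [hpre]; exact hK.image (hcont _)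
  have hr : ∀ r : ℝ, 0 < r → μ (φ t ⁻¹' K) ≤ μ (thickening r K) := by
    intro r hr
    set f : V → ℝ := fun z => (thickenedIndicator hr K z : ℝ) with hf
    have hthc : IsCompact (cthickening r K) := hK.cthickening
    have hthf : μ (thickening r K) ≠ ⊤ :=
      ((measure_mono (thickening_subset_cthickening r K)).trans_lt hthc.measure_lt_top).ne
    have hfzero : ∀ z ∉ thickening r K, f z = 0 := by
      intro z hz
      simp only [hf, thickenedIndicator_zero hr K hz, NNReal.coe_zero]
    have hfone : ∀ z ∈ K, f z = 1 := by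
      intro z hz
      simp only [hf, thickenedIndicator_one hr K hz, NNReal.coe_one]
    have hfle : ∀ z, f z ≤ 1 := by
      intro z
      simp only [hf]
      exact_mod_cast thickenedIndicator_le_one hr K z
    have hfnn : ∀ z, 0 ≤ f z := fun z => NNReal.coe_nonneg _
    have hfc : HasCompactSupport f := HasCompactSupport.intro hthc fun z hz =>
      hfzero z fun h => hz (thickening_subset_cthickening r K h)
    have hfL : ∃ D, LipschitzWith D f := by
      have h1 := lipschitzWith_thickenedIndicator hr K
      refine ⟨_, (LipschitzWith.comp (g := thickenedIndicator hr K) (f := ((↑) : ℝ≥0 → ℝ))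
        (Kf := 1) ?_ h1)⟩
      exact LipschitzWith.of_dist_le_mul fun x y => by simp [NNReal.dist_eq, Real.dist_eq]
    obtain ⟨D, hD⟩ := hfL
    have heq := integral_flow_const μ b hX hXc hdiv h0 hadd hφ hlip hC f hD hfc t
    have hfc' : HasCompactSupport (fun z => f (φ t z)) := by
      have hK' : IsCompact (φ (-t) '' tsupport f) := hfc.isCompact.image (hcont _)
      refine HasCompactSupport.intro hK' fun z hz => ?_
      by_contra hne
      apply hz
      refine ⟨φ t z, subset_tsupport _ hne, ?_⟩
      rw [← hadd]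
      simp [h0]
    have hl : (μ (φ t ⁻¹' K)).toReal ≤ ∫ z, f (φ t z) ∂μ := by
      have h1 : (μ (φ t ⁻¹' K)).toReal = ∫ z, (φ t ⁻¹' K).indicator (fun _ => (1:ℝ)) z ∂μ := by
        rw [integral_indicator_const _ hKc.isClosed.measurableSet]
        simp [Measure.real]
      rw [h1]
      refine integral_mono ?_ ?_ ?_
      · rw [integrable_indicator_iff hKc.isClosed.measurableSet]
        exact integrableOn_const (hs := hKc.measure_lt_top.ne)
      · exact (hD.continuous.comp (hcont t)).integrable_of_hasCompactSupport hfc'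
      · intro z
        by_cases hz : z ∈ φ t ⁻¹' K
        · rw [indicator_of_mem hz]
          exact (hfone _ hz).ge
        · rw [indicator_of_notMem hz]
          exact hfnn _
    have hu : ∫ z, f z ∂μ ≤ (μ (thickening r K)).toReal := by
      have h1 : (μ (thickening r K)).toReal =
          ∫ z, (thickening r K).indicator (fun _ => (1:ℝ)) z ∂μ := by
        rw [integral_indicator_const _ isOpen_thickening.measurableSet]
        simp [Measure.real]
      rw [h1]
      refine integral_mono ?_ ?_ ?_
      · exact hD.continuous.integrable_of_hasCompactSupport hfc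
      · rw [integrable_indicator_iff isOpen_thickening.measurableSet]
        exact integrableOn_const (hs := hthf)
      · intro z
        by_cases hz : z ∈ thickening r K
        · rw [indicator_of_mem hz]
          exact hfle _
        · rw [indicator_of_notMem hz]
          exact (hfzero _ hz).le
    have h2 : (μ (φ t ⁻¹' K)).toReal ≤ (μ (thickening r K)).toReal := by linarith
    exact (ENNReal.toReal_le_toReal hKc.measure_lt_top.ne hthf).mp h2
  have hlim := tendsto_measure_thickening_of_isClosed (μ := μ) (s := K)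
    ⟨1, one_pos, ((measure_mono (thickening_subset_cthickening 1 K)).trans_lt
      hK.cthickening.measure_lt_top).ne⟩ hK.isClosed
  refine ge_of_tendsto hlim ?_
  filter_upwards [self_mem_nhdsWithin] with r hr' using hr r hr'

lemma generateFrom_compact :
    ‹MeasurableSpace V› = MeasurableSpace.generateFrom {K : Set V | IsCompact K} := by
  refine le_antisymm ?_ ?_
  · rw [BorelSpace.measurable_eq (α := V), borel_eq_generateFrom_isClosed]
    refine MeasurableSpace.generateFrom_le fun F hF => ?_
    have h1 : F = ⋃ n : ℕ, F ∩ closedBall 0 n := by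
      rw [← inter_iUnion, iUnion_closedBall_nat, inter_univ]
    rw [h1]
    refine MeasurableSet.iUnion fun n => ?_
    exact MeasurableSpace.measurableSet_generateFrom
      ((isCompact_closedBall (0:V) n).inter_left hF)
  · exact MeasurableSpace.generateFrom_le fun K hK => (IsCompact.isClosed hK).measurableSet

/-- **Liouville's theorem**: the flow of a compactly supported divergence free `C¹` vector field
preserves the volume. -/
theorem flow_measurePreserving (hX : ContDiff ℝ 1 X) (hXc : HasCompactSupport X)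
    (hdiv : ∀ z, ∑ i, b.coord i (fderiv ℝ X z (b i)) = 0)
    (h0 : ∀ z, φ 0 z = z) (hadd : ∀ s t z, φ (s + t) z = φ s (φ t z))
    (hφ : ∀ t z, HasDerivAt (fun r => φ r z) (X (φ t z)) t)
    (hlip : ∀ t, ∃ L, LipschitzWith L (φ t))
    (hC : ∀ z, LipschitzWith C (fun t => φ t z)) (t : ℝ) :
    MeasurePreserving (φ t) μ μ := by
  have hcont : ∀ t, Continuous (φ t) := fun t => by
    obtain ⟨L, hL⟩ := hlip t
    exact hL.continuous
  have hpreimage : ∀ t (K : Set V), φ t ⁻¹' K = φ (-t) '' K := by
    intro t K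
    ext z
    constructor
    · intro hz
      exact ⟨φ t z, hz, by rw [← hadd]; simp [h0]⟩
    · rintro ⟨w, hw, rfl⟩
      show φ t (φ (-t) w) ∈ K
      rw [← hadd]
      simpa [h0] using hw
  have heq : ∀ K : Set V, IsCompact K → μ (φ t ⁻¹' K) = μ K := by
    intro K hK
    refine le_antisymm (measure_preimage_le μ b hX hXc hdiv h0 hadd hφ hlip hC t hK) ?_
    have hKc : IsCompact (φ t ⁻¹' K) := by
      rw [hpreimage]; exact hK.image (hcont _)
    have h1 := measure_preimage_le μ b hX hXc hdiv h0 hadd hφ hlip hC (-t) hKc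
    have h2 : φ (-t) ⁻¹' (φ t ⁻¹' K) = K := by
      ext z
      show φ t (φ (-t) z) ∈ K ↔ z ∈ K
      rw [← hadd]
      simp [h0]
    rwa [h2] at h1
  refine ⟨(hcont t).measurable, ?_⟩
  refine Measure.ext_of_generateFrom_of_iUnion {K : Set V | IsCompact K}
    (fun n : ℕ => closedBall (0:V) n) generateFrom_compact ?_ (iUnion_closedBall_nat _)
    (fun n => isCompact_closedBall _ _) (fun n => ?_) (fun K hK => ?_)
  · intro K hK L hL _
    exact IsCompact.inter hK hL
  · rw [Measure.map_apply (hcont t).measurable isClosed_closedBall.measurableSet,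
      heq _ (isCompact_closedBall _ _)]
    exact (isCompact_closedBall _ _).measure_lt_top.ne
  · rw [Measure.map_apply (hcont t).measurable (IsCompact.isClosed hK).measurableSet]
    exact heq K hK

end preserve

end KBRA
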