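import Pool.Agent.helper18.KBR.Liouville
import Pool.Agent.helper21.KBR.Inv

/-!
# The geodesic flow, extended to a complete volume preserving flow
-/

noncomputable section

namespace KBR

open Set MeasureTheory Filter Topology
open scoped ContDiff RealInnerProductSpace NNReal

variable {n : ℕ}

/-- the Hamiltonian is conserved -/
lemma ham_conserved (H : E n × E n → ℝ) (hH : ContDiff ℝ ∞ H) (φ : ℝ → E n × E n → E n × E n)
    (h0 : ∀ z, φ 0 z = z) (hφ : ∀ t z, HasDerivAt (fun r => φ r z) (XH H (φ t z)) t)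
    (t : ℝ) (z : E n × E n) : H (φ t z) = H z := by
  have hd : ∀ y, fderiv ℝ H y (XH H y) = 0 := by
    intro y
    set X := XH H y with hX
    have h1 : X = (X.1, 0) + (0, X.2) := by ext <;> simp
    have e1 : ∀ w, ⟪X.1, w⟫ = fderiv ℝ H y (0, w) := by
      intro w
      rw [hX, XH, InnerProductSpace.toDual_symm_apply]
      simp
    have e2 : ∀ w, ⟪X.2, w⟫ = -fderiv ℝ H y (w, 0) := by
      intro w
      rw [hX, XH]
      simp only [inner_neg_left, InnerProductSpace.toDual_symm_apply]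
      simp
    rw [h1, map_add]
    have e3 := e1 X.2
    have e4 := e2 X.1
    rw [real_inner_comm] at e4
    linarith
  have hder : ∀ r, HasDerivAt (fun r => H (φ r z)) 0 r := by
    intro r
    have h1 : HasFDerivAt H (fderiv ℝ H (φ r z)) (φ r z) :=
      (hH.differentiable (by simp) _).hasFDerivAt
    have h2 := h1.comp_hasDerivAt r (hφ r z)
    rwa [hd] at h2
  have h3 := is_const_of_deriv_eq_zero (f := fun r => H (φ r z))
    (fun r => (hder r).differentiableAt) (fun r => (hder r).deriv) t 0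
  simpa [h0] using h3

lemma gap_argument {f : ℝ → ℝ} (hf : Continuous f) {a R s : ℝ} (haR : a < R) (h0 : f 0 ≤ a)
    (h : ∀ r ∈ uIcc 0 s, f r ≤ R → f r ≤ a) : ∀ r ∈ uIcc 0 s, f r ≤ a := by
  intro r hr
  by_contra hne
  push Not at hne
  have h1 : R < f r := by
    by_contra h2
    push Not at h2
    exact absurd (h r hr h2) (not_le.mpr hne)
  have h2 : R ∈ uIcc (f 0) (f r) := by
    rw [mem_uIcc]
    left
    exact ⟨by linarith, h1.le⟩
  obtain ⟨r', hr', h3⟩ := intermediate_value_uIcc (f := f) hf.continuousOn h2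
  have h4 : r' ∈ uIcc 0 s := uIcc_subset_uIcc_left hr hr'
  have h5 := h r' h4 h3.le
  linarith

theorem geodesic_flow (G : E n → E n →L[ℝ] E n) (hG : IsMetric G) :
    ∃ φ : ℝ → E n × E n → E n × E n,
      Continuous (fun q : ℝ × (E n × E n) => φ q.1 q.2) ∧
      (∀ z, φ 0 z = z) ∧ (∀ s t z, φ (s + t) z = φ s (φ t z)) ∧
      (∀ t, MeasurePreserving (φ t) volume volume) ∧
      ∀ z : E n × E n, z.1 ∈ M n → dsq G z ≤ 1 → ∀ s, (∀ r ∈ uIcc 0 s, (φ r z).1 ∈ M n) →
        dsq G (φ s z) = dsq G z ∧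
        HasDerivAt (fun r => (φ r z).1) ((G (φ s z).1).inverse (φ s z).2) s ∧
        ∀ w, HasDerivAt (fun r => ⟪(φ r z).2, w⟫)
          (1 / 2 * ⟪fderiv ℝ G (φ s z).1 w ((G (φ s z).1).inverse (φ s z).2),
            (G (φ s z).1).inverse (φ s z).2⟫) s := by
  -- the open set where `G` is invertible
  set U : Set (E n) := {x | (G x).IsInvertible} with hU
  have hUo : IsOpen U := by
    have h1 : IsOpen (range ((↑) : (E n ≃L[ℝ] E n) → E n →L[ℝ] E n)) :=
      ContinuousLinearEquiv.isOpen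
    exact h1.preimage hG.smooth.continuous
  have hMU : M n ⊆ U := fun x hx => hG.inv hx
  have hMc : IsCompact (M n) := isCompact_closedBall _ _
  obtain ⟨δ, hδ, hδU⟩ := hMc.exists_cthickening_subset_open hUo hMU
  have hballU : Metric.closedBall (0 : E n) (1 + δ) ⊆ U := by
    have : Metric.cthickening δ (M n) = Metric.closedBall (0 : E n) (1 + δ) := by
      rw [M, cthickening_closedBall hδ.le zero_le_one]
      rw [add_comm]
    rw [← this]; exact hδU
  -- bound of `G`
  obtain ⟨C₀, hC₀⟩ := hMc.exists_bound_of_continuousOn (f := G) hG.smooth.continuous.continuousOn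
  set a : ℝ := Real.sqrt (max C₀ 0) with ha
  set R : ℝ := a + 1 with hR
  have ha0 : 0 ≤ a := Real.sqrt_nonneg _
  -- the key inequality
  have hkey : ∀ x ∈ M n, ∀ p : E n, dsq G (x, p) ≤ 1 → ‖p‖ ≤ a := by
    intro x hx p hp
    have h1 : ‖p‖ ^ 2 ≤ max C₀ 0 := by
      set v := (G x).inverse p with hv
      have hGv : G x v = p := hG.apply_inv hx p
      have h2 : ⟪G x v, v⟫ ≤ 1 := by
        rw [hGv, real_inner_comm]; exact hp
      have h3 : |⟪G x v, p⟫| ≤ nrm G x v * nrm G x p := hG.cs hx v p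
      have h4 : ⟪G x v, p⟫ = ‖p‖ ^ 2 := by rw [hGv, real_inner_self_eq_norm_sq]
      have h5 : nrm G x v ≤ 1 := by
        rw [nrm]; exact Real.sqrt_le_one.mpr h2
      have h6 : ⟪G x p, p⟫ ≤ max C₀ 0 * ‖p‖ ^ 2 := by
        calc ⟪G x p, p⟫ ≤ ‖G x p‖ * ‖p‖ := real_inner_le_norm _ _
          _ ≤ (‖G x‖ * ‖p‖) * ‖p‖ := by gcongr; exact (G x).le_opNorm p
          _ ≤ (max C₀ 0 * ‖p‖) * ‖p‖ := by
              gcongr
              exact (hC₀ x hx).trans (le_max_left _ _)
          _ = max C₀ 0 * ‖p‖ ^ 2 := by ring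
      have h7 : nrm G x p ^ 2 ≤ max C₀ 0 * ‖p‖ ^ 2 := by rw [hG.nrm_sq hx]; exact h6
      have h8 : ‖p‖ ^ 2 ≤ nrm G x p := by
        rw [← h4]
        refine (le_abs_self _).trans (h3.trans ?_)
        calc nrm G x v * nrm G x p ≤ 1 * nrm G x p := by
              gcongr
              exact nrm_nonneg _ _
          _ = nrm G x p := one_mul _
      by_cases hp0 : ‖p‖ = 0
      · rw [hp0]; simp
      · have hp1 : 0 < ‖p‖ ^ 2 := by positivity
        have h9 : ‖p‖ ^ 2 * ‖p‖ ^ 2 ≤ max C₀ 0 * ‖p‖ ^ 2 := by nlinarith [nrm_nonneg (G := G) x p]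
        exact le_of_mul_le_mul_right h9 hp1
    rw [ha]
    exact Real.le_sqrt_of_sq_le h1
  -- the cut off Hamiltonian
  let χ : ContDiffBump (0 : E n) := ⟨1 + δ / 2, 1 + δ, by positivity, by linarith⟩
  let θ : ContDiffBump (0 : E n) := ⟨R, R + 1, by positivity, by linarith⟩
  set H₀ : E n × E n → ℝ := fun z => 1 / 2 * ⟪(G z.1).inverse z.2, z.2⟫ with hH₀
  set H : E n × E n → ℝ := fun z => H₀ z * (χ z.1 * θ z.2) with hH
  have hH₀s : ∀ z : E n × E n, z.1 ∈ U → ContDiffAt ℝ ∞ H₀ z := by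
    intro z hz
    obtain ⟨e, he⟩ := hz
    have h1 : ContDiffAt ℝ ∞ ContinuousLinearMap.inverse (G z.1) := by
      rw [← he]
      exact contDiffAt_map_inverse e
    have h2 : ContDiffAt ℝ ∞ (fun y => (G y).inverse) z.1 := h1.comp z.1 hG.smooth.contDiffAt
    have h3 : ContDiffAt ℝ ∞ (fun y : E n × E n => (G y.1).inverse) z :=
      h2.comp z contDiffAt_fst
    exact contDiffAt_const.mul ((h3.clm_apply contDiffAt_snd).inner ℝ contDiffAt_snd)
  have hHs : ContDiff ℝ ∞ H := by
    rw [contDiff_iff_contDiffAt]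
    intro z
    by_cases hz : z.1 ∈ Metric.closedBall (0 : E n) (1 + δ)
    · exact (hH₀s z (hballU hz)).mul ((χ.contDiff.comp contDiff_fst).contDiffAt.mul
        (θ.contDiff.comp contDiff_snd).contDiffAt)
    · have h1 : H =ᶠ[𝓝 z] fun _ => 0 := by
        have h2 : {y : E n × E n | y.1 ∈ (Metric.closedBall (0 : E n) (1 + δ))ᶜ} ∈ 𝓝 z :=
          (Metric.isClosed_closedBall.isOpen_compl.preimage continuous_fst).mem_nhds hz
        filter_upwards [h2] with y hy
        have h3 : χ y.1 = 0 := by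
          apply χ.zero_of_le_dist
          have : ¬ dist y.1 0 ≤ 1 + δ := hy
          exact (not_le.mp this).le
        simp [hH, h3]
      exact contDiffAt_const.congr_of_eventuallyEq h1
  have hHc : HasCompactSupport H := by
    refine HasCompactSupport.intro ((isCompact_closedBall (0 : E n) (1 + δ)).prod
      (isCompact_closedBall (0 : E n) (R + 1))) fun z hz => ?_
    rw [Set.mem_prod, not_and_or] at hz
    rcases hz with hz | hz
    · have h3 : χ z.1 = 0 := χ.zero_of_le_dist (not_le.mp hz).le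
      simp [hH, h3]
    · have h3 : θ z.2 = 0 := θ.zero_of_le_dist (not_le.mp hz).le
      simp [hH, h3]
  obtain ⟨φ, hc, h0, hadd, hφ, hmp⟩ := liouville H hHs hHc
  refine ⟨φ, hc, h0, hadd, hmp, ?_⟩
  intro z hzM hz1 s hs
  have hHM : ∀ y : E n × E n, y.1 ∈ M n → ‖y.2‖ ≤ R → H y = 1 / 2 * dsq G y := by
    intro y hy1 hy2
    have h1 : χ y.1 = 1 := χ.one_of_mem_closedBall (by
      have : dist y.1 0 ≤ 1 := hy1
      show dist y.1 0 ≤ 1 + δ / 2
      linarith)
    have h2 : θ y.2 = 1 := θ.one_of_mem_closedBall (by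
      show dist y.2 0 ≤ R
      rwa [dist_zero_right])
    simp [hH, h1, h2, hH₀, dsq]
  have hz2 : ‖z.2‖ ≤ a := hkey z.1 hzM z.2 hz1
  have hHz : H z = 1 / 2 * dsq G z := hHM z hzM (by linarith)
  have hcons : ∀ r, H (φ r z) = 1 / 2 * dsq G z := fun r => by
    rw [ham_conserved H hHs φ h0 hφ, hHz]
  have hcr : Continuous (fun r => φ r z) := by
    exact hc.comp (continuous_id.prodMk continuous_const)
  have hbound : ∀ r ∈ uIcc 0 s, ‖(φ r z).2‖ ≤ a := by
    refine gap_argument (f := fun r => ‖(φ r z).2‖) (a := a) (R := R) ?_ (by linarith) ?_ ?_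
    · exact (continuous_snd.comp hcr).norm
    · simpa [h0] using hz2
    · intro r hr hrR
      refine hkey _ (hs r hr) _ ?_
      have h1 := hHM (φ r z) (hs r hr) hrR
      rw [hcons] at h1
      have h2 : dsq G (φ r z) = dsq G z := by linarith
      show dsq G (φ r z) ≤ 1
      rw [h2]; exact hz1
  have hsM : (φ s z).1 ∈ M n := hs s right_mem_uIcc
  have hsa : ‖(φ s z).2‖ ≤ a := hbound s right_mem_uIcc
  have hdsq : dsq G (φ s z) = dsq G z := by
    have h1 := hHM (φ s z) hsM (by linarith)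
    rw [hcons] at h1
    linarith
  -- near `φ s z` the Hamiltonian is `H₀`
  set y := φ s z with hy
  have hloc : H =ᶠ[𝓝 y] H₀ := by
    have h1 : {w : E n × E n | w.1 ∈ Metric.ball (0 : E n) (1 + δ / 2)} ∈ 𝓝 y := by
      refine (Metric.isOpen_ball.preimage continuous_fst).mem_nhds ?_
      have : dist y.1 0 ≤ 1 := hsM
      show dist y.1 0 < 1 + δ / 2
      linarith
    have h2 : {w : E n × E n | w.2 ∈ Metric.ball (0 : E n) R} ∈ 𝓝 y := by
      refine (Metric.isOpen_ball.preimage continuous_snd).mem_nhds ?_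
      show dist y.2 0 < R
      rw [dist_zero_right]
      linarith
    filter_upwards [h1, h2] with w hw1 hw2
    have h3 : χ w.1 = 1 := χ.one_of_mem_closedBall (Metric.ball_subset_closedBall hw1)
    have h4 : θ w.2 = 1 := θ.one_of_mem_closedBall (Metric.ball_subset_closedBall hw2)
    simp [hH, h3, h4]
  have hfd : fderiv ℝ H y = fderiv ℝ H₀ y := hloc.fderiv_eq
  -- derivative of `H₀`
  have hKd : HasFDerivAt (fun x => (G x).inverse) (fderiv ℝ (fun x => (G x).inverse) y.1) y.1 :=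
    ((hG.contDiffAt_inv hsM).differentiableAt (by simp)).hasFDerivAt
  have hK1 : HasFDerivAt (fun w : E n × E n => (G w.1).inverse)
      ((fderiv ℝ (fun x => (G x).inverse) y.1).comp (ContinuousLinearMap.fst ℝ (E n) (E n))) y :=
    hKd.comp y hasFDerivAt_fst
  have hK2 := hK1.clm_apply (hasFDerivAt_snd (𝕜 := ℝ) (E := E n) (F := E n) (p := y))
  have hK3 := (hK2.inner ℝ (hasFDerivAt_snd (𝕜 := ℝ) (E := E n) (F := E n) (p := y))).const_mul
    (1 / 2 : ℝ)
  have hH₀d : ∀ u w : E n, fderiv ℝ H₀ y (u, w) =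
      1 / 2 * ⟪fderiv ℝ (fun x => (G x).inverse) y.1 u y.2, y.2⟫ +
        ⟪(G y.1).inverse y.2, w⟫ := by
    intro u w
    rw [hK3.fderiv]
    simp only [_root_.smul_apply, ContinuousLinearMap.comp_apply, fderivInnerCLM_apply,
      ContinuousLinearMap.prod_apply, _root_.add_apply, ContinuousLinearMap.flip_apply,
      ContinuousLinearMap.coe_fst', ContinuousLinearMap.coe_snd', smul_eq_mul]
    rw [inner_add_left, hG.inv_symm hsM w y.2]
    ring
  have hX1 : (XH H y).1 = (G y.1).inverse y.2 := by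
    refine ext_inner_right ℝ fun w => ?_
    rw [XH, InnerProductSpace.toDual_symm_apply, hfd]
    show fderiv ℝ H₀ y (0, w) = _
    rw [hH₀d]
    simp
  have hX2 : ∀ w, ⟪(XH H y).2, w⟫ = 1 / 2 * ⟪fderiv ℝ G y.1 w ((G y.1).inverse y.2),
      (G y.1).inverse y.2⟫ := by
    intro w
    rw [XH]
    simp only [inner_neg_left, InnerProductSpace.toDual_symm_apply]
    rw [hfd]
    show -(fderiv ℝ H₀ y (w, 0)) = _
    rw [hH₀d, hG.fderiv_inv hsM w]
    simp only [inner_zero_right, add_zero, neg_apply, inner_neg_left,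
      ContinuousLinearMap.comp_apply]
    rw [hG.inv_symm hsM, real_inner_comm ((fderiv ℝ G y.1 w) ((G y.1).inverse y.2))]
    ring
  have hd1 : HasDerivAt (fun r => (φ r z).1) (XH H y).1 s := by
    have h1 : HasFDerivAt (fun w : E n × E n => w.1) (ContinuousLinearMap.fst ℝ (E n) (E n))
        (φ s z) := hasFDerivAt_fst
    have h2 := HasFDerivAt.comp_hasDerivAt (f := fun r => φ r z) s h1 (hφ s z)
    exact h2
  have hd2 : HasDerivAt (fun r => (φ r z).2) (XH H y).2 s := by
    have h1 : HasFDerivAt (fun w : E n × E n => w.2) (ContinuousLinearMap.snd ℝ (E n) (E n))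
        (φ s z) := hasFDerivAt_snd
    have h2 := HasFDerivAt.comp_hasDerivAt (f := fun r => φ r z) s h1 (hφ s z)
    exact h2
  refine ⟨hdsq, ?_, fun w => ?_⟩
  · rw [← hX1]; exact hd1
  · have h1 := hd2.inner ℝ (hasDerivAt_const s w)
    simp only [inner_zero_right, zero_add] at h1
    rw [hX2] at h1
    exact h1

end KBR
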