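import Pool.Agent.helper18.KBR.Flow
import Pool.Agent.helper21.KBR.Defs2

/-!
# Liouville's theorem for a compactly supported Hamiltonian
-/

noncomputable section

namespace KBRA

open Set MeasureTheory
open scoped ContDiff RealInnerProductSpace NNReal
open KBR

variable {n : ℕ}

/-- the linear map `L ↦ X` giving the Hamiltonian vector field from the differential -/
def symp (n : ℕ) : ((E n × E n) →L[ℝ] ℝ) →L[ℝ] (E n × E n) :=
  ((InnerProductSpace.toDual ℝ (E n)).symm.toContinuousLinearEquiv.toContinuousLinearMap.comp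
    ((ContinuousLinearMap.compL ℝ (E n) (E n × E n) ℝ).flip
      (ContinuousLinearMap.inr ℝ (E n) (E n)))).prod
  (-((InnerProductSpace.toDual ℝ (E n)).symm.toContinuousLinearEquiv.toContinuousLinearMap.comp
    ((ContinuousLinearMap.compL ℝ (E n) (E n × E n) ℝ).flip
      (ContinuousLinearMap.inl ℝ (E n) (E n)))))

lemma XH_eq (H : E n × E n → ℝ) (z : E n × E n) : XH H z = symp n (fderiv ℝ H z) := rfl

lemma XH_contDiff (H : E n × E n → ℝ) (hH : ContDiff ℝ ∞ H) : ContDiff ℝ ∞ (XH H) := by
  have h1 : ContDiff ℝ ∞ (fderiv ℝ H) := hH.fderiv_right (by simp)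
  exact (symp n).contDiff.comp h1

lemma XH_compact (H : E n × E n → ℝ) (hc : HasCompactSupport H) : HasCompactSupport (XH H) :=
  (hc.fderiv ℝ).comp_left (g := symp n) (map_zero _)

/-- basis of the phase space -/
def bas (n : ℕ) : Module.Basis (Fin n ⊕ Fin n) ℝ (E n × E n) :=
  (EuclideanSpace.basisFun (Fin n) ℝ).toBasis.prod (EuclideanSpace.basisFun (Fin n) ℝ).toBasis

lemma XH_div (H : E n × E n → ℝ) (hH : ContDiff ℝ ∞ H) (z : E n × E n) :
    ∑ i, (bas n).coord i (fderiv ℝ (XH H) z (bas n i)) = 0 := by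
  have h1 : ContDiff ℝ ∞ (fderiv ℝ H) := hH.fderiv_right (by simp)
  have h2 : HasFDerivAt (fderiv ℝ H) (fderiv ℝ (fderiv ℝ H) z) z :=
    (h1.differentiable (by simp) z).hasFDerivAt
  have h3 : fderiv ℝ (XH H) z = (symp n).comp (fderiv ℝ (fderiv ℝ H) z) :=
    ((symp n).hasFDerivAt.comp z h2).fderiv
  have hsym : ∀ u v, fderiv ℝ (fderiv ℝ H) z u v = fderiv ℝ (fderiv ℝ H) z v u := by
    intro u v
    have h4 : IsSymmSndFDerivAt ℝ H z := (hH.contDiffAt).isSymmSndFDerivAt (by simp only [minSmoothness_of_isRCLikeNormedField]; exact ENat.LEInfty.out)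
    exact h4 u v
  have hinl : ∀ (L : (E n × E n) →L[ℝ] ℝ) (i : Fin n),
      (bas n).coord (Sum.inl i) (symp n L) = L (0, EuclideanSpace.single i 1) := by
    intro L i
    simp only [bas, Module.Basis.coord_apply, Module.Basis.prod_repr_inl]
    show (EuclideanSpace.basisFun (Fin n) ℝ).toBasis.repr ((InnerProductSpace.toDual ℝ (E n)).symm
      (L.comp (ContinuousLinearMap.inr ℝ (E n) (E n)))) i = _
    rw [OrthonormalBasis.coe_toBasis_repr_apply, OrthonormalBasis.repr_apply_apply,
      real_inner_comm, InnerProductSpace.toDual_symm_apply]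
    simp
  have hinr : ∀ (L : (E n × E n) →L[ℝ] ℝ) (i : Fin n),
      (bas n).coord (Sum.inr i) (symp n L) = -L (EuclideanSpace.single i 1, 0) := by
    intro L i
    simp only [bas, Module.Basis.coord_apply, Module.Basis.prod_repr_inr]
    show (EuclideanSpace.basisFun (Fin n) ℝ).toBasis.repr (-(InnerProductSpace.toDual ℝ (E n)).symm
      (L.comp (ContinuousLinearMap.inl ℝ (E n) (E n)))) i = _
    rw [OrthonormalBasis.coe_toBasis_repr_apply, OrthonormalBasis.repr_apply_apply, inner_neg_right,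
      real_inner_comm, InnerProductSpace.toDual_symm_apply]
    simp
  rw [Fintype.sum_sum_type]
  simp only [h3, ContinuousLinearMap.comp_apply, hinl, hinr]
  rw [← Finset.sum_add_distrib]
  refine Finset.sum_eq_zero fun i _ => ?_
  have e1 : bas n (Sum.inl i) = (EuclideanSpace.single i 1, 0) := by
    simp [bas, Module.Basis.prod_apply]
  have e2 : bas n (Sum.inr i) = (0, EuclideanSpace.single i 1) := by
    simp [bas, Module.Basis.prod_apply]
  rw [e1, e2, hsym]
  ring

end KBRA

namespace KBR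

open Set MeasureTheory
open scoped ContDiff RealInnerProductSpace NNReal
open KBRA

variable {n : ℕ}

/-- MODULE A: Liouville's theorem for a compactly supported Hamiltonian. -/
theorem liouville (H : E n × E n → ℝ) (hH : ContDiff ℝ ∞ H) (hc : HasCompactSupport H) :
    ∃ φ : ℝ → E n × E n → E n × E n,
      Continuous (fun q : ℝ × (E n × E n) => φ q.1 q.2) ∧
      (∀ z, φ 0 z = z) ∧ (∀ s t z, φ (s + t) z = φ s (φ t z)) ∧
      (∀ t z, HasDerivAt (fun r => φ r z) (XH H (φ t z)) t) ∧
      ∀ t, MeasurePreserving (φ t) volume volume := by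
  have hX := XH_contDiff H hH
  have hXc := XH_compact H hc
  obtain ⟨K, hK⟩ := ContDiff.lipschitzWith_of_hasCompactSupport hXc hX (by simp)
  obtain ⟨C₀, hC₀⟩ := hX.continuous.bounded_above_of_compact_support hXc
  have hC : ∀ z, ‖XH H z‖₊ ≤ Real.toNNReal C₀ := by
    intro z
    rw [← NNReal.coe_le_coe, coe_nnnorm]
    exact (hC₀ z).trans (Real.le_coe_toNNReal _)
  have hX1 : ContDiff ℝ 1 (XH H) := hX.of_le (by simp)
  obtain ⟨φ, h0, hadd, hφ, hlip, hlt⟩ := exists_flow (XH H) hX1 K _ hK hC
  have : (volume : Measure (E n × E n)).IsAddHaarMeasure := by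
    rw [Measure.volume_eq_prod]; infer_instance
  refine ⟨φ, flow_continuous (fun t => (hlip t).continuous) hlt, h0, hadd, hφ, fun t => ?_⟩
  exact flow_measurePreserving volume (bas n) hX1 hXc (XH_div H hH) h0 hadd hφ
    (fun t => ⟨_, hlip t⟩) hlt t

end KBR
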