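import Pool.Agent.helper25.KBR.D2

/-! # MODULE PL2 (follow-up of the Kähler rigidity theorem, MP_07cd05_gt) -/

set_option maxSynthPendingDepth 3
noncomputable section

namespace KBR.PL

open Set MeasureTheory Metric
open scoped ContDiff RealInnerProductSpace NNReal Topology
open D2 (e hsL Wf)

variable {n : ℕ}

theorem sum_inner_smul' (x : E n) : ∑ k, ⟪x, e n k⟫ • e n k = x := by
  conv_rhs => rw [← D2.sum_inner_smul x]
  exact Finset.sum_congr rfl fun k _ => by rw [real_inner_comm]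

/-- the bilinear form `τ(·, ·, w)` -/
def bil (τ : E n →L[ℝ] E n →L[ℝ] E n →L[ℝ] ℝ) (w : E n) : E n →ₗ[ℝ] E n →ₗ[ℝ] ℝ :=
  LinearMap.mk₂ ℝ (fun u v => τ u v w) (fun _ _ _ => by simp) (fun _ _ _ => by simp)
    (fun _ _ _ => by simp) (fun _ _ _ => by simp)

theorem bil_apply (τ : E n →L[ℝ] E n →L[ℝ] E n →L[ℝ] ℝ) (w u v : E n) : bil τ w u v = τ u v w := rfl

/-- `∑ B(e_l, A P e_l) = - ∑ B(P e_l, A e_l)` for skew `P` -/
theorem skew_shift (B : E n →ₗ[ℝ] E n →ₗ[ℝ] ℝ) (A P : E n →L[ℝ] E n)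
    (hP : ∀ u v, ⟪P u, v⟫ = -⟪P v, u⟫) :
    ∑ l, B (e n l) (A (P (e n l))) = - ∑ l, B (P (e n l)) (A (e n l)) := by
  have h1 : ∀ l, B (e n l) (A (P (e n l))) = ∑ j, ⟪P (e n l), e n j⟫ * B (e n l) (A (e n j)) := by
    intro l
    conv_lhs => rw [← sum_inner_smul' (P (e n l))]
    rw [map_sum, map_sum]
    refine Finset.sum_congr rfl fun j _ => ?_
    rw [map_smul, map_smul, smul_eq_mul]
  have h2 : ∀ j, B (P (e n j)) (A (e n j)) = ∑ l, ⟪P (e n j), e n l⟫ * B (e n l) (A (e n j)) := by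
    intro j
    conv_lhs => rw [← sum_inner_smul' (P (e n j))]
    rw [map_sum, LinearMap.sum_apply]
    refine Finset.sum_congr rfl fun l _ => ?_
    rw [map_smul, LinearMap.smul_apply, smul_eq_mul]
  simp_rw [h1, h2]
  rw [Finset.sum_comm, ← Finset.sum_neg_distrib]
  refine Finset.sum_congr rfl fun j _ => ?_
  rw [← Finset.sum_neg_distrib]
  refine Finset.sum_congr rfl fun l _ => ?_
  rw [hP (e n l) (e n j)]
  ring

/-- the cyclic cancellation -/
theorem cyc_sum (c T : Fin n → Fin n → Fin n → ℝ) (hc : ∀ k l j, c k l j + c l j k + c j k l = 0)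
    (hT : ∀ l j k, T l j k = T j k l) : ∑ k, ∑ l, ∑ j, c k l j * T l j k = 0 := by
  have e1 : ∑ k, ∑ l, ∑ j, c k l j * T l j k = ∑ k, ∑ l, ∑ j, c l j k * T l j k := by
    -- rename (k,l,j) -> (l,j,k)
    have : ∑ k, ∑ l, ∑ j, c k l j * T l j k = ∑ l, ∑ j, ∑ k, c l j k * T j k l := rfl
    rw [this]
    have h2 : ∑ l, ∑ j, ∑ k, c l j k * T j k l = ∑ l, ∑ k, ∑ j, c l j k * T j k l :=
      Finset.sum_congr rfl fun l _ => Finset.sum_comm
    rw [h2, Finset.sum_comm]
    refine Finset.sum_congr rfl fun k _ => Finset.sum_congr rfl fun l _ =>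
      Finset.sum_congr rfl fun j _ => ?_
    rw [← hT l j k]
  have e2 : ∑ k, ∑ l, ∑ j, c l j k * T l j k = ∑ k, ∑ l, ∑ j, c j k l * T l j k := by
    have h0 := e1
    -- apply the renaming once more to `c' k l j = c l j k`
    have h3 : ∑ k, ∑ l, ∑ j, c l j k * T l j k = ∑ l, ∑ j, ∑ k, c j k l * T j k l := rfl
    rw [h3]
    have h2 : ∑ l, ∑ j, ∑ k, c j k l * T j k l = ∑ l, ∑ k, ∑ j, c j k l * T j k l :=
      Finset.sum_congr rfl fun l _ => Finset.sum_comm
    rw [h2, Finset.sum_comm]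
    refine Finset.sum_congr rfl fun k _ => Finset.sum_congr rfl fun l _ =>
      Finset.sum_congr rfl fun j _ => ?_
    rw [← hT l j k]
  have e3 : ∑ k, ∑ l, ∑ j, c k l j * T l j k + ∑ k, ∑ l, ∑ j, c l j k * T l j k +
      ∑ k, ∑ l, ∑ j, c j k l * T l j k = 0 := by
    simp_rw [← Finset.sum_add_distrib, ← add_mul, hc, zero_mul, Finset.sum_const_zero]
  linarith

theorem hasFDerivAt_inverse (O : E n → E n →L[ℝ] E n) (x : E n) (hO : ContDiffAt ℝ 1 O x)
    (hU : IsUnit (O x)) : HasFDerivAt (fun y => Ring.inverse (O y))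
      ((-ContinuousLinearMap.mulLeftRight ℝ (E n →L[ℝ] E n) (Ring.inverse (O x))
        (Ring.inverse (O x))).comp (fderiv ℝ O x)) x := by
  have hOd : HasFDerivAt O (fderiv ℝ O x) x := (hO.differentiableAt (by simp)).hasFDerivAt
  obtain ⟨u, hu⟩ := hU
  have h := hasFDerivAt_ringInverse (𝕜 := ℝ) u
  rw [hu] at h
  have hPu : Ring.inverse (O x) = ↑u⁻¹ := by rw [← hu, Ring.inverse_unit]
  rw [← hPu] at h
  exact h.comp x hOd

set_option maxHeartbeats 1000000 in
/-- MODULE PL2. -/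
theorem PL2 (G O : E n → E n →L[ℝ] E n) (x : E n)
    (τ : E n → E n →L[ℝ] E n →L[ℝ] E n →L[ℝ] ℝ) (t : E n → E n)
    (hG : ContDiffAt ℝ 1 G x) (hO : ContDiffAt ℝ 1 O x) (hτ : ContDiffAt ℝ 1 τ x)
    (ht : ∀ᶠ y in 𝓝 x, ∀ w, ⟪t y, w⟫ =
      ∑ k, τ y (D2.e n k) (Ring.inverse (O y) (D2.e n k)) w)
    (hpos : 0 < (G x).det) (hU : IsUnit (O x))
    (hdet : ∀ᶠ y in 𝓝 x, 0 < (G y).det ∧ (G y).det ^ 2 = (O y).det ^ 2)
    (hOs : ∀ u v, ⟪O x u, v⟫ = -⟪O x v, u⟫)
    (hOs' : ∀ u v w, ⟪fderiv ℝ O x u v, w⟫ = -⟪fderiv ℝ O x u w, v⟫)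
    (hc : ∀ u v w, ⟪fderiv ℝ O x u v, w⟫ + ⟪fderiv ℝ O x v w, u⟫ + ⟪fderiv ℝ O x w u, v⟫ = 0)
    (ht1 : ∀ u v w, τ x u v w = - τ x v u w) (ht2 : ∀ u v w, τ x u v w = - τ x u w v) :
    DifferentiableAt ℝ (fun y => D2.Wf G O y (t y)) x ∧
    ∑ k, ⟪fderiv ℝ (fun y => D2.Wf G O y (t y)) x (D2.e n k), D2.e n k⟫ =
      - (Real.sqrt (G x).det * ∑ k, ∑ l, fderiv ℝ τ x (D2.e n k) (D2.e n l)
        (Ring.inverse (O x) (D2.e n l)) (Ring.inverse (O x) (D2.e n k))) := by
  set P := Ring.inverse (O x) with hP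
  set O' := fderiv ℝ O x with hO'
  set τ' := fderiv ℝ τ x with hτ'
  have hτd : HasFDerivAt τ τ' x := (hτ.differentiableAt (by simp)).hasFDerivAt
  have hinv := hasFDerivAt_inverse O x hO hU
  set P' := (-ContinuousLinearMap.mulLeftRight ℝ (E n →L[ℝ] E n) (Ring.inverse (O x))
        (Ring.inverse (O x))).comp (fderiv ℝ O x) with hP'
  have hP'e : ∀ u v, P' u v = - P (O' u (P v)) := by
    intro u v
    rw [hP']
    simp only [ContinuousLinearMap.comp_apply, neg_apply, ContinuousLinearMap.mulLeftRight_apply]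
    rfl
  -- derivative of the contraction
  have hd1 : ∀ l w, HasFDerivAt (fun y => τ y (e n l) (Ring.inverse (O y) (e n l)) w)
      (((((τ x (e n l)).comp (P'.flip (e n l)) + (τ'.flip (e n l)).flip (P (e n l)))).flip w)) x := by
    intro l w
    have h1 : HasFDerivAt (fun y => τ y (e n l)) (τ'.flip (e n l)) x := by
      refine (hτd.clm_apply (hasFDerivAt_const (e n l) x)).congr_fderiv ?_
      ext z; simp
    have h2 : HasFDerivAt (fun y => Ring.inverse (O y) (e n l)) (P'.flip (e n l)) x := by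
      refine (hinv.clm_apply (hasFDerivAt_const (e n l) x)).congr_fderiv ?_
      ext z; simp
    have h3 := h1.clm_apply h2
    refine (h3.clm_apply (hasFDerivAt_const w x)).congr_fderiv ?_
    ext z; simp [hP]
  have hd2 : ∀ w, HasFDerivAt (fun y => ∑ l, τ y (e n l) (Ring.inverse (O y) (e n l)) w)
      (∑ l, (((((τ x (e n l)).comp (P'.flip (e n l)) + (τ'.flip (e n l)).flip (P (e n l)))).flip w))) x := by
    intro w
    exact HasFDerivAt.fun_sum fun l _ => hd1 l w
  -- `t` is differentiable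
  have htd : DifferentiableAt ℝ t x := by
    have h1 : DifferentiableAt ℝ (fun y => ∑ j, (∑ l, τ y (e n l) (Ring.inverse (O y) (e n l)) (e n j)) • e n j) x := by
      refine DifferentiableAt.fun_sum fun j _ => ?_
      exact (hd2 (e n j)).differentiableAt.smul_const _
    refine h1.congr_of_eventuallyEq ?_
    filter_upwards [ht] with y hy
    simp_rw [← hy]
    exact (sum_inner_smul' (t y)).symm
  set t' := fderiv ℝ t x with ht'
  have htD : HasFDerivAt t t' x := htd.hasFDerivAt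
  have hte : ∀ u w, ⟪t' u, w⟫ = ∑ l, (τ' u (e n l) (P (e n l)) w - τ x (e n l) (P (O' u (P (e n l)))) w) := by
    intro u w
    have h1 : HasFDerivAt (fun y => ⟪t y, w⟫) ((innerSL ℝ w).comp t') x := by
      have h3 := (innerSL ℝ w).hasFDerivAt.comp x htD
      refine h3.congr_of_eventuallyEq (Filter.Eventually.of_forall fun y => ?_)
      simp [real_inner_comm]
    have h2 : (fun y => ⟪t y, w⟫) =ᶠ[𝓝 x] fun y => ∑ l, τ y (e n l) (Ring.inverse (O y) (e n l)) w := by
      filter_upwards [ht] with y hy using hy w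
    have h3 := ((hd2 w).congr_of_eventuallyEq h2).unique h1
    have h4 := congrArg (fun L : E n →L[ℝ] ℝ => L u) h3
    simp only [ContinuousLinearMap.comp_apply, innerSL_apply_apply] at h4
    rw [real_inner_comm, ← h4, sum_apply]
    refine Finset.sum_congr rfl fun l _ => ?_
    simp only [ContinuousLinearMap.flip_apply, add_apply, ContinuousLinearMap.comp_apply, hP'e, map_neg,
      neg_apply]
    ring
  -- the field
  have hWc := D2.contDiffAt_Wf G O x hG hO hpos hU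
  have hWd : HasFDerivAt (Wf G O) (fderiv ℝ (Wf G O) x) x := (hWc.differentiableAt (by simp)).hasFDerivAt
  have hF : HasFDerivAt (fun y => Wf G O y (t y))
      ((Wf G O x).comp t' + (fderiv ℝ (Wf G O) x).flip (t x)) x := hWd.clm_apply htD
  refine ⟨hF.differentiableAt, ?_⟩
  rw [hF.fderiv]
  have hPa := D2.inverse_antisymm (O x) hU hOs
  rw [← hP] at hPa
  have hdiv := D2.div_Wf G O x hG hO hpos hU hdet hOs hOs' hc (t x)
  have h1 : ∑ k, ⟪((Wf G O x).comp t' + (fderiv ℝ (Wf G O) x).flip (t x)) (e n k), e n k⟫ =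
      ∑ k, ⟪Wf G O x (t' (e n k)), e n k⟫ := by
    have : ∀ k, ⟪((Wf G O x).comp t' + (fderiv ℝ (Wf G O) x).flip (t x)) (e n k), e n k⟫ =
        ⟪Wf G O x (t' (e n k)), e n k⟫ + ⟪fderiv ℝ (Wf G O) x (e n k) (t x), e n k⟫ := by
      intro k
      simp only [add_apply, ContinuousLinearMap.comp_apply, ContinuousLinearMap.flip_apply, inner_add_left]
    simp_rw [this]
    rw [Finset.sum_add_distrib, hdiv, add_zero]
  rw [h1]
  have h2 : ∀ k, ⟪Wf G O x (t' (e n k)), e n k⟫ = -(Real.sqrt (G x).det *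
      ∑ l, (τ' (e n k) (e n l) (P (e n l)) (P (e n k)) -
        τ x (e n l) (P (O' (e n k) (P (e n l)))) (P (e n k)))) := by
    intro k
    rw [← hte]
    simp only [Wf, smul_apply, real_inner_smul_left]
    rw [← hP, hPa, real_inner_comm (P (e n k))]
    ring
  simp_rw [h2]
  rw [Finset.sum_neg_distrib, ← Finset.mul_sum]
  congr 2
  simp_rw [Finset.sum_sub_distrib]
  rw [sub_eq_self]
  -- the cubic term
  set T : Fin n → Fin n → Fin n → ℝ := fun l j k => τ x (P (e n l)) (P (e n j)) (P (e n k)) with hT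
  have h3 : ∀ k, ∑ l, τ x (e n l) (P (O' (e n k) (P (e n l)))) (P (e n k)) =
      - ∑ l, ∑ j, ⟪O' (e n k) (e n l), e n j⟫ * T l j k := by
    intro k
    have h4 := skew_shift (bil (τ x) (P (e n k))) (P * O' (e n k)) P hPa
    simp only [bil_apply] at h4
    have h5 : ∀ u, (P * O' (e n k)) u = P (O' (e n k) u) := fun _ => rfl
    simp only [h5] at h4
    rw [h4]
    congr 1
    refine Finset.sum_congr rfl fun l _ => ?_
    conv_lhs => rw [← sum_inner_smul' (O' (e n k) (e n l))]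
    rw [map_sum, map_sum, sum_apply]
    refine Finset.sum_congr rfl fun j _ => ?_
    rw [map_smul, map_smul, smul_apply, smul_eq_mul]
  simp_rw [h3]
  rw [Finset.sum_neg_distrib, neg_eq_zero]
  refine cyc_sum (fun k l j => ⟪O' (e n k) (e n l), e n j⟫) T (fun k l j => hc _ _ _) ?_
  intro l j k
  simp only [hT]
  rw [ht1 (P (e n l)) (P (e n j)) (P (e n k)), ht2 (P (e n j)) (P (e n l)) (P (e n k)), neg_neg]

end KBR.PL
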